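import Pool.Agent.Helper66.GP.Defs

/-! # Schroeder-Bernstein inside a model -/

namespace Pool.Agent.Helper16.GP

universe u

open ZFSet
open Pool.Agent.Helper22 Pool.Agent.Helper66.SC Pool.Agent.Helper22.SC

/-- One step of the operator. -/
noncomputable def phi (a b f g S : ZFSet.{u}) : ZFSet.{u} :=
  a \ img (b \ img S (SC.app f)) (SC.app g)

/-- The largest post-fixed point. -/
noncomputable def fixp (N : Set ZFSet.{u}) (a b f g : ZFSet.{u}) : ZFSet.{u} :=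
  ZFSet.sUnion (ZFSet.sep (fun S => ∀ x ∈ S, x ∈ phi a b f g S) (Pow N a))

theorem mem_phi {a b f g S x : ZFSet.{u}} : x ∈ phi a b f g S ↔
    x ∈ a ∧ ∀ y ∈ b, (∀ s ∈ S, SC.app f s ≠ y) → SC.app g y ≠ x := by
  unfold phi
  simp only [ZFSet.mem_sdiff, mem_img, not_exists, not_and]
  constructor
  · rintro ⟨h1, h2⟩
    exact ⟨h1, fun y hy hs he => h2 y ⟨hy, fun s hs' he' => hs s hs' he'⟩ he⟩
  · rintro ⟨h1, h2⟩
    exact ⟨h1, fun y hy he => h2 y hy.1 (fun s hs he' => hy.2 s hs he') he⟩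

theorem phi_mono {a b f g S T : ZFSet.{u}} (h : S ⊆ T) : phi a b f g S ⊆ phi a b f g T := by
  intro x hx
  rw [mem_phi] at hx ⊢
  exact ⟨hx.1, fun y hy hs => hx.2 y hy (fun s hs' => hs s (h hs'))⟩

theorem phi_sub {a b f g S : ZFSet.{u}} : phi a b f g S ⊆ a := fun _ hx => (mem_phi.1 hx).1

theorem U_phi : U KZ.{u} (fun _ _ (p : ((ZFSet.{u} × ZFSet.{u}) × (ZFSet.{u} × ZFSet.{u})) ×
    ZFSet.{u}) => phi p.1.1.1 p.1.1.2 p.1.2.1 p.1.2.2 p.2) := by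
  unfold phi
  apply_rules (transparency := .reducible) (maxDepth := 400) using is_poly

theorem phi_mem {M A : Set ZFSet.{u}} (hM : IsZF M A) {a b f g S : ZFSet.{u}} (ha : a ∈ M)
    (hb : b ∈ M) (hf : f ∈ M) (hg : g ∈ M) (hS : S ∈ M) : phi a b f g S ∈ M := by
  have h := U_phi.closed hM (a := (((a, b), (f, g)), S)) (by simp [ha, hb, hf, hg, hS])
  simpa using h

theorem fixp_mem {M A : Set ZFSet.{u}} (hM : IsZF M A) {a b f g : ZFSet.{u}} (ha : a ∈ M)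
    (hb : b ∈ M) (hf : f ∈ M) (hg : g ∈ M) : fixp M a b f g ∈ M := by
  have h := (show U KZ.{u} (fun N _ (p : ((ZFSet.{u} × ZFSet.{u}) × (ZFSet.{u} × ZFSet.{u}))) =>
      fixp N p.1.1 p.1.2 p.2.1 p.2.2) by
    unfold fixp phi
    apply_rules (transparency := .reducible) (maxDepth := 400) using is_poly).closed hM
      (a := ((a, b), (f, g))) (by simp [ha, hb, hf, hg])
  simpa using h

theorem st_sb : Pool.Agent.Helper66.GP.ST_SB.{u} := by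
  intro M A hM a ha b hb hab hba
  obtain ⟨f, hf, -, hfm, hfi⟩ := cardLe_iff.1 hab
  obtain ⟨g, hg, -, hgm, hgi⟩ := cardLe_iff.1 hba
  set S := fixp M a b f g with hS
  have hSM : S ∈ M := fixp_mem hM ha hb hf hg
  have hmem : ∀ {x}, x ∈ S ↔ ∃ T, (T ∈ M ∧ T ⊆ a) ∧ (∀ y ∈ T, y ∈ phi a b f g T) ∧ x ∈ T := by
    intro x
    rw [hS, fixp]
    simp only [ZFSet.mem_sUnion, ZFSet.mem_sep, mem_Pow]
    constructor
    · rintro ⟨T, ⟨h1, h2⟩, h3⟩
      exact ⟨T, by tauto, h2, h3⟩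
    · rintro ⟨T, h1, h2, h3⟩
      exact ⟨T, ⟨by tauto, h2⟩, h3⟩
  have hSa : S ⊆ a := by
    intro x hx
    obtain ⟨T, h1, -, h3⟩ := hmem.1 hx
    exact h1.2 h3
  have h1 : S ⊆ phi a b f g S := by
    intro x hx
    obtain ⟨T, hT, h2, h3⟩ := hmem.1 hx
    exact phi_mono (fun y hy => hmem.2 ⟨T, hT, h2, hy⟩) (h2 x h3)
  have h2 : phi a b f g S ⊆ S := fun x hx =>
    hmem.2 ⟨phi a b f g S, ⟨phi_mem hM ha hb hf hg hSM, phi_sub⟩,
      fun y hy => phi_mono h1 hy, hx⟩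
  -- the bijection
  set h : ZFSet.{u} := gr S (SC.app f) ∪
    img (b \ img S (SC.app f)) (fun y => ZFSet.pair (SC.app g y) y) with hh
  have hhM : h ∈ M := by
    have := (show U KZ.{u} (fun _ _ (p : (ZFSet.{u} × ZFSet.{u}) × (ZFSet.{u} × ZFSet.{u})) =>
        SC.gr p.1.1 (SC.app p.2.1) ∪ img (p.1.2 \ img p.1.1 (SC.app p.2.1))
          (fun y => ZFSet.pair (SC.app p.2.2 y) y)) by
      apply_rules (transparency := .reducible) (maxDepth := 400) using is_poly).closed hM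
        (a := ((S, b), (f, g))) (by simp [hSM, hb, hf, hg])
    simpa [hh] using this
  have key : ∀ {x y}, ZFSet.pair x y ∈ h ↔ (x ∈ S ∧ SC.app f x = y) ∨
      (y ∈ b ∧ (∀ s ∈ S, SC.app f s ≠ y) ∧ SC.app g y = x) := by
    intro x y
    rw [hh, ZFSet.mem_union, pair_mem_gr, mem_img]
    constructor
    · rintro (⟨h3, h4⟩ | ⟨z, h3, h4⟩)
      · exact Or.inl ⟨h3, h4.symm⟩
      · rw [ZFSet.mem_sdiff, mem_img] at h3
        obtain ⟨h5, h6⟩ := ZFSet.pair_injective h4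
        subst h6
        exact Or.inr ⟨h3.1, fun s hs he => h3.2 ⟨s, hs, he⟩, h5⟩
    · rintro (⟨h3, h4⟩ | ⟨h3, h4, h5⟩)
      · exact Or.inl ⟨h3, h4.symm⟩
      · refine Or.inr ⟨y, ?_, by rw [h5]⟩
        rw [ZFSet.mem_sdiff, mem_img]
        exact ⟨h3, fun ⟨s, hs, he⟩ => h4 s hs he⟩
  have hout : ∀ {x}, x ∈ a → x ∉ S → ∃ y ∈ b, (∀ s ∈ S, SC.app f s ≠ y) ∧ SC.app g y = x := by
    intro x hx hxS
    have : x ∉ phi a b f g S := fun h' => hxS (h2 h')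
    rw [mem_phi] at this
    push Not at this
    obtain ⟨y, hy, h3, h4⟩ := this hx
    exact ⟨y, hy, h3, h4⟩
  have hin : ∀ {x y}, x ∈ S → y ∈ b → (∀ s ∈ S, SC.app f s ≠ y) → SC.app g y ≠ x := by
    intro x y hx hy h3
    exact (mem_phi.1 (h1 hx)).2 y hy h3
  refine ⟨h, hhM, ⟨?_, ?_⟩, ?_, ?_⟩
  · intro z hz
    rw [hh, ZFSet.mem_union] at hz
    rcases hz with hz | hz
    · obtain ⟨x, hx, rfl⟩ := mem_gr.1 hz
      exact ZFSet.pair_mem_prod.2 ⟨hSa hx, hfm x (hSa hx)⟩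
    · obtain ⟨y, hy, rfl⟩ := mem_img.1 hz
      rw [ZFSet.mem_sdiff] at hy
      exact ZFSet.pair_mem_prod.2 ⟨hgm y hy.1, hy.1⟩
  · intro x hx
    by_cases hxS : x ∈ S
    · refine ⟨SC.app f x, key.2 (Or.inl ⟨hxS, rfl⟩), ?_⟩
      intro y hy
      rcases key.1 hy with ⟨_, h4⟩ | ⟨h3, h4, h5⟩
      · exact h4.symm
      · exact absurd h5 (hin hxS h3 h4)
    · obtain ⟨y, hy, h3, h4⟩ := hout hx hxS
      refine ⟨y, key.2 (Or.inr ⟨hy, h3, h4⟩), ?_⟩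
      intro z hz
      rcases key.1 hz with ⟨h5, _⟩ | ⟨h5, _, h6⟩
      · exact absurd h5 hxS
      · exact hgi z h5 y hy (h6.trans h4.symm)
  · intro y hy
    by_cases h3 : ∃ s ∈ S, SC.app f s = y
    · obtain ⟨s, hs, he⟩ := h3
      exact ⟨s, hSa hs, key.2 (Or.inl ⟨hs, he⟩)⟩
    · push Not at h3
      exact ⟨SC.app g y, hgm y hy, key.2 (Or.inr ⟨hy, h3, rfl⟩)⟩
  · intro x x' y hx hx'
    rcases key.1 hx with ⟨h3, h4⟩ | ⟨h3, h4, h5⟩
    · rcases key.1 hx' with ⟨h6, h7⟩ | ⟨h6, h7, h8⟩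
      · exact hfi x (hSa h3) x' (hSa h6) (h4.trans h7.symm)
      · exact absurd h4 (h7 x h3)
    · rcases key.1 hx' with ⟨h6, h7⟩ | ⟨h6, h7, h8⟩
      · exact absurd h7 (h4 x' h6)
      · exact h5.symm.trans h8

end Pool.Agent.Helper16.GP
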